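import Pool.Agent.W546.N4.Defs

/-!
Project N4 (helper214 for helper546): Gaussian integrals.
-/

set_option autoImplicit false
open Matrix MeasureTheory Set Metric Filter Topology
open scoped ENNReal Nat

namespace Pool.Agent.W214.N4
open Pool.Agent.Helper82.OS hiding uu
open Pool.Agent.W546.ST Pool.Agent.W546.N4

/-- Gaussian integral -/
noncomputable def L (f : ℝ → E 5 → ℝ) : ℝ≥0∞ :=
  ∫⁻ w : E 5, ∫⁻ t : ℝ, ENNReal.ofReal (f t w * (gt t * gw w))

lemma gt_pos (t : ℝ) : 0 < gt t := Real.exp_pos _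
lemma gw_pos (w : E 5) : 0 < gw w := Real.exp_pos _

lemma gt_meas : Measurable gt := by
  unfold gt
  fun_prop

lemma gw_meas : Measurable (fun w : E 5 => gw w) := by
  unfold gw
  fun_prop

lemma uu_meas : Measurable uu := by
  unfold uu
  fun_prop

lemma uu_nonneg (w : E 5) : 0 ≤ uu w := Finset.sum_nonneg fun _ _ => sq_nonneg _

lemma ae_uu : ∀ᵐ w : E 5, uu w ≠ 0 := by
  let S : Submodule ℝ (E 5) := LinearMap.ker ((EuclideanSpace.proj (0 : Fin 5) : E 5 →L[ℝ] ℝ) : E 5 →ₗ[ℝ] ℝ)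
  have hS : S ≠ ⊤ := by
    intro h
    have h1 : EuclideanSpace.single (0 : Fin 5) (1 : ℝ) ∈ S := by rw [h]; trivial
    have h2 : (EuclideanSpace.single (0 : Fin 5) (1 : ℝ) : E 5) 0 = 0 := h1
    simp at h2
  have h0 : (volume : Measure (E 5)) S = 0 := Measure.addHaar_submodule volume S hS
  have h1 : ∀ᵐ w : E 5, w ∉ (S : Set (E 5)) := by
    rw [ae_iff]
    simpa using h0
  filter_upwards [h1] with w hw hu
  apply hw
  have h2 : ∀ i ∈ (Finset.univ : Finset (Fin 4)), w i.castSucc ^ 2 = 0 :=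
    (Finset.sum_eq_zero_iff_of_nonneg (fun _ _ => sq_nonneg _)).1 hu
  have h3 := h2 0 (Finset.mem_univ _)
  have h4 : w (Fin.castSucc (0 : Fin 4)) = 0 := by
    exact pow_eq_zero_iff (two_ne_zero) |>.1 h3
  exact h4

/-- joint measurability -/
def Me (f : ℝ → E 5 → ℝ) : Prop := Measurable (fun p : E 5 × ℝ => f p.2 p.1)

lemma L_meas {f : ℝ → E 5 → ℝ} (hf : Me f) :
    Measurable (fun p : E 5 × ℝ => ENNReal.ofReal (f p.2 p.1 * (gt p.2 * gw p.1))) := by
  have h1 : Measurable (fun p : E 5 × ℝ => gt p.2) := gt_meas.comp measurable_snd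
  have h2 : Measurable (fun p : E 5 × ℝ => gw p.1) := gw_meas.comp measurable_fst
  exact ((hf.mul (h1.mul h2))).ennreal_ofReal

lemma L_add {f g : ℝ → E 5 → ℝ} (hf : Me f) (hf0 : ∀ t w, 0 ≤ f t w) (hg0 : ∀ t w, 0 ≤ g t w) :
    L (fun t w => f t w + g t w) = L f + L g := by
  unfold L
  have h : ∀ (w : E 5) (t : ℝ), ENNReal.ofReal ((f t w + g t w) * (gt t * gw w)) =
      ENNReal.ofReal (f t w * (gt t * gw w)) + ENNReal.ofReal (g t w * (gt t * gw w)) := by
    intro w t
    have := gt_pos t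
    have := gw_pos w
    rw [add_mul, ENNReal.ofReal_add (by have := hf0 t w; positivity) (by have := hg0 t w; positivity)]
  simp_rw [h]
  have h2 : ∀ w : E 5, ∫⁻ t : ℝ, (ENNReal.ofReal (f t w * (gt t * gw w)) +
      ENNReal.ofReal (g t w * (gt t * gw w))) = (∫⁻ t : ℝ, ENNReal.ofReal (f t w * (gt t * gw w))) +
      ∫⁻ t : ℝ, ENNReal.ofReal (g t w * (gt t * gw w)) := by
    intro w
    exact lintegral_add_left ((L_meas hf).comp (measurable_prodMk_left (x := w))) _
  simp_rw [h2]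
  exact lintegral_add_left (L_meas hf).lintegral_prod_right' _

lemma L_add_le {f g : ℝ → E 5 → ℝ} (hf0 : ∀ t w, 0 ≤ f t w) (hg0 : ∀ t w, 0 ≤ g t w) :
    L f + L g ≤ L (fun t w => f t w + g t w) := by
  unfold L
  refine (le_lintegral_add _ _).trans (lintegral_mono fun w => ?_)
  refine (le_lintegral_add _ _).trans (lintegral_mono fun t => ?_)
  have := gt_pos t
  have := gw_pos w
  rw [add_mul, ENNReal.ofReal_add (by have := hf0 t w; positivity) (by have := hg0 t w; positivity)]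

lemma L_mono {f g : ℝ → E 5 → ℝ} (h : ∀ w, uu w ≠ 0 → ∀ t, f t w ≤ g t w) : L f ≤ L g := by
  unfold L
  refine lintegral_mono_ae ?_
  filter_upwards [ae_uu] with w hw
  refine lintegral_mono fun t => ENNReal.ofReal_le_ofReal ?_
  exact mul_le_mul_of_nonneg_right (h w hw t) (mul_pos (gt_pos t) (gw_pos w)).le

lemma L_congr {f g : ℝ → E 5 → ℝ} (h : ∀ w, uu w ≠ 0 → ∀ t, f t w = g t w) : L f = L g :=
  le_antisymm (L_mono fun w hw t => (h w hw t).le) (L_mono fun w hw t => (h w hw t).ge)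

lemma L_const (c : ℝ) (hc : 0 ≤ c) (f : ℝ → E 5 → ℝ) :
    L (fun t w => c * f t w) = ENNReal.ofReal c * L f := by
  unfold L
  have h : ∀ (w : E 5) (t : ℝ), ENNReal.ofReal (c * f t w * (gt t * gw w)) =
      ENNReal.ofReal c * ENNReal.ofReal (f t w * (gt t * gw w)) := by
    intro w t
    rw [mul_assoc, ENNReal.ofReal_mul hc]
  simp_rw [h]
  have h2 : ∀ w : E 5, ∫⁻ t : ℝ, (ENNReal.ofReal c * ENNReal.ofReal (f t w * (gt t * gw w))) =
      ENNReal.ofReal c * ∫⁻ t : ℝ, ENNReal.ofReal (f t w * (gt t * gw w)) := fun w =>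
    lintegral_const_mul' _ _ ENNReal.ofReal_ne_top
  simp_rw [h2]
  exact lintegral_const_mul' _ _ ENNReal.ofReal_ne_top

/-- symmetrisation in `t` -/
lemma L_sym {f : ℝ → E 5 → ℝ} (hf : ∀ w, Measurable fun t => f t w) (hf0 : ∀ t w, 0 ≤ f t w) :
    L f = L (fun t w => (f t w + f (-t) w) / 2) := by
  unfold L
  refine lintegral_congr fun w => ?_
  have hgw := gw_pos w
  have h : ∀ t : ℝ, ENNReal.ofReal ((f t w + f (-t) w) / 2 * (gt t * gw w)) =
      ENNReal.ofReal (1 / 2) * ENNReal.ofReal (f t w * (gt t * gw w)) +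
      ENNReal.ofReal (1 / 2) * ENNReal.ofReal (f (-t) w * (gt (-t) * gw w)) := by
    intro t
    have h1 := gt_pos t
    have h2 := gt_pos (-t)
    have h3 : gt (-t) = gt t := by unfold gt; rw [neg_sq]
    rw [← ENNReal.ofReal_mul (by norm_num), ← ENNReal.ofReal_mul (by norm_num),
      ← ENNReal.ofReal_add (by have := hf0 t w; positivity) (by have := hf0 (-t) w; positivity), h3]
    congr 1
    ring
  simp_rw [h]
  have hm : Measurable (fun t : ℝ => ENNReal.ofReal (f t w * (gt t * gw w))) :=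
    ((hf w).mul (gt_meas.mul_const _)).ennreal_ofReal
  rw [lintegral_add_left (hm.const_mul _), lintegral_const_mul' _ _ ENNReal.ofReal_ne_top,
    lintegral_const_mul' _ _ ENNReal.ofReal_ne_top]
  have h4 : ∫⁻ t : ℝ, ENNReal.ofReal (f (-t) w * (gt (-t) * gw w)) =
      ∫⁻ t : ℝ, ENNReal.ofReal (f t w * (gt t * gw w)) :=
    (Measure.measurePreserving_neg (volume : Measure ℝ)).lintegral_comp hm
  rw [h4, ← add_mul, ← ENNReal.ofReal_add (by norm_num) (by norm_num)]
  norm_num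

lemma r2p_pos : 0 < r2p := by
  unfold r2p
  have := Real.pi_pos
  positivity

lemma int_gt : ∫⁻ t : ℝ, ENNReal.ofReal (gt t) = ENNReal.ofReal r2p := by
  have h1 : gt = fun t : ℝ => Real.exp (-(1 / 2) * t ^ 2) := by
    funext t
    unfold gt
    congr 1
    ring
  have hint : Integrable gt := by
    rw [h1]
    exact integrable_exp_neg_mul_sq (by norm_num)
  rw [← ofReal_integral_eq_lintegral_ofReal hint (Filter.Eventually.of_forall fun t => (gt_pos t).le)]
  congr 1
  rw [h1, integral_gaussian]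
  unfold r2p
  congr 1
  field_simp

/-- a bound for the `t`-integral -/
lemma L_inner (f : ℝ → E 5 → ℝ) (R : E 5 → ℝ) (hR : ∀ w, uu w ≠ 0 → 0 ≤ R w)
    (h : ∀ w, uu w ≠ 0 → ∫⁻ t : ℝ, ENNReal.ofReal (f t w * gt t) ≤ ENNReal.ofReal (R w)) :
    L f ≤ L (fun _ w => R w / r2p) := by
  unfold L
  refine lintegral_mono_ae ?_
  filter_upwards [ae_uu] with w hw
  have hgw := gw_pos w
  have e1 : ∀ t : ℝ, ENNReal.ofReal (f t w * (gt t * gw w)) =
      ENNReal.ofReal (f t w * gt t) * ENNReal.ofReal (gw w) := by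
    intro t
    rw [← ENNReal.ofReal_mul' hgw.le]
    congr 1
    ring
  have e2 : ∀ t : ℝ, ENNReal.ofReal (R w / r2p * (gt t * gw w)) =
      ENNReal.ofReal (gt t) * ENNReal.ofReal (R w / r2p * gw w) := by
    intro t
    rw [← ENNReal.ofReal_mul (gt_pos t).le]
    congr 1
    ring
  simp_rw [e1, e2]
  rw [lintegral_mul_const' _ _ ENNReal.ofReal_ne_top, lintegral_mul_const' _ _ ENNReal.ofReal_ne_top,
    int_gt, ← ENNReal.ofReal_mul r2p_pos.le]
  refine (mul_le_mul_left (h w hw) _).trans (le_of_eq ?_)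
  rw [← ENNReal.ofReal_mul (hR w hw)]
  congr 1
  have := r2p_pos
  field_simp

end Pool.Agent.W214.N4
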