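import Mathlib

/-!
Project N4 (helper214 for helper546): the final numerical inequality.
-/

set_option autoImplicit false

namespace Pool.Agent.W214.N4

lemma sqrt_lb (D : ℝ) (hD : 0 ≤ D) (hD1 : D ≤ 1) : 1 + D / 2 - D ^ 2 / 8 ≤ Real.sqrt (1 + D) := by
  refine Real.le_sqrt_of_sq_le ?_
  have h3 : 0 ≤ D ^ 3 := by positivity
  have h4 : D ^ 4 ≤ D ^ 3 := by
    calc D ^ 4 = D * D ^ 3 := by ring
      _ ≤ 1 * D ^ 3 := mul_le_mul_of_nonneg_right hD1 h3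
      _ = D ^ 3 := one_mul _
  have e : (1 + D / 2 - D ^ 2 / 8) ^ 2 = 1 + D - D ^ 3 / 8 + D ^ 4 / 64 := by ring
  rw [e]
  linarith

lemma num (D q R2 Rs s2 x0 xe : ℝ) (hqD : q ^ 2 = D) (hR0 : 0 ≤ R2) (hRD : R2 ≤ D)
    (hsR : Rs ≤ R2) (hx : x0 ^ 2 + xe ^ 2 = 1)
    (hSL : (x0 ^ 2 / 32 + xe ^ 2 / 14) * D ≤ R2 / 14 + s2 / 16 - 37 / 5600 * Rs)
    (hc : D ≤ 43 / 1000 ∨ (D ≤ 39 / 500 ∧ x0 ^ 2 ≤ 2 / 5)) :
    35 / 8 + 1 / 2 * ((2 * D - R2) / 4 * (35 / 4) + R2 * (15 / 8)) +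
      37 / 200 * (Rs / 12 * (15 / 8)) + 8 * D ^ 2 * (270303 / 1000000 + 403 / 10000 * q) +
      3 / 400 * ((2 * D - R2) / 4 * (15 / 4) + R2 * (3 / 4)) +
      37 / 400 * D * (Rs / 12 * (5 / 4 + 9 / 8)) -
      1 / 2 * (s2 / 12 * (105 / 16) + R2 / 4 * (5 / 4)) ≤
    Real.sqrt (1 + D) * (1 - D / 5000) * (35 / 8) := by
  have hD0 : 0 ≤ D := by rw [← hqD]; positivity
  have hD1 : D ≤ 39 / 500 := by
    rcases hc with h | h
    · linarith
    · exact h.1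
  have h1 := sqrt_lb D hD0 (by linarith)
  have h2 : (1 + D / 2 - D ^ 2 / 8) * (1 - D / 5000) ≤ Real.sqrt (1 + D) * (1 - D / 5000) :=
    mul_le_mul_of_nonneg_right h1 (by linarith)
  have h3 : (1 + D / 2 - D ^ 2 / 8) * (1 - D / 5000) ≥
      1 + D / 2 - D / 5000 - D ^ 2 * (1251 / 10000) := by
    have : 0 ≤ D ^ 3 := by positivity
    nlinarith
  have h4 : 37 / 400 * D * (Rs / 12 * (5 / 4 + 9 / 8)) ≤ 184 / 10000 * D ^ 2 := by
    have : D * Rs ≤ D * D := mul_le_mul_of_nonneg_left (hsR.trans hRD) hD0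
    nlinarith
  -- reduction to one variable
  suffices hmain : ∀ σ : ℝ, σ * D ≤ R2 / 14 + s2 / 16 - 37 / 5600 * Rs →
      D ^ 2 * (184 / 10000 + 8 * (270303 / 1000000 + 403 / 10000 * q)) +
        35 / 8 * (D ^ 2 * (1251 / 10000)) ≤
        35 / 8 * ((σ - 1 / 5000 - 9 / 2800) * D) →
      35 / 8 + 1 / 2 * ((2 * D - R2) / 4 * (35 / 4) + R2 * (15 / 8)) +
      37 / 200 * (Rs / 12 * (15 / 8)) + 8 * D ^ 2 * (270303 / 1000000 + 403 / 10000 * q) +
      3 / 400 * ((2 * D - R2) / 4 * (15 / 4) + R2 * (3 / 4)) +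
      37 / 400 * D * (Rs / 12 * (5 / 4 + 9 / 8)) -
      1 / 2 * (s2 / 12 * (105 / 16) + R2 / 4 * (5 / 4)) ≤
      35 / 8 * (1 + D / 2 - D / 5000 - D ^ 2 * (1251 / 10000)) by
    have hfin : ∃ σ : ℝ, σ * D ≤ R2 / 14 + s2 / 16 - 37 / 5600 * Rs ∧
      D ^ 2 * (184 / 10000 + 8 * (270303 / 1000000 + 403 / 10000 * q)) +
        35 / 8 * (D ^ 2 * (1251 / 10000)) ≤
        35 / 8 * ((σ - 1 / 5000 - 9 / 2800) * D) := by
      rcases hc with h | h
      · refine ⟨1 / 32, ?_, ?_⟩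
        · refine le_trans ?_ hSL
          apply mul_le_mul_of_nonneg_right _ hD0
          nlinarith [sq_nonneg xe]
        · have hq1 : q ≤ 2074 / 10000 := by
            refine (abs_le_of_sq_le_sq' ?_ (by norm_num)).2
            rw [hqD]; norm_num at h ⊢; linarith
          have h5 : D ^ 2 * q ≤ D ^ 2 * (2074 / 10000) :=
            mul_le_mul_of_nonneg_left hq1 (sq_nonneg D)
          nlinarith
      · refine ⟨1 / 80 + 3 / 70, ?_, ?_⟩
        · refine le_trans ?_ hSL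
          apply mul_le_mul_of_nonneg_right _ hD0
          nlinarith [h.2]
        · have hq1 : q ≤ 2793 / 10000 := by
            refine (abs_le_of_sq_le_sq' ?_ (by norm_num)).2
            rw [hqD]; have := h.1; norm_num at this ⊢; linarith
          have h5 : D ^ 2 * q ≤ D ^ 2 * (2793 / 10000) :=
            mul_le_mul_of_nonneg_left hq1 (sq_nonneg D)
          nlinarith [h.1]
    obtain ⟨σ, a1, a2⟩ := hfin
    have a3 := hmain σ a1 a2
    have a4 : 35 / 8 * (1 + D / 2 - D / 5000 - D ^ 2 * (1251 / 10000)) ≤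
        Real.sqrt (1 + D) * (1 - D / 5000) * (35 / 8) := by linarith
    exact a3.trans a4
  intro σ a1 a2
  have a3 : 35 / 8 * (σ * D) ≤ 35 / 8 * (R2 / 14 + s2 / 16 - 37 / 5600 * Rs) :=
    mul_le_mul_of_nonneg_left a1 (by norm_num)
  nlinarith

end Pool.Agent.W214.N4
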