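import Pool.Agent.W214.N4.Ptw
import Pool.Agent.W214.N4.Lb
import Pool.Agent.W214.N4.Num

/-!
Project N4 (helper214 for helper546): the inequality near the optimal plane.
-/

set_option autoImplicit false
open Matrix MeasureTheory Set Metric Filter Topology
open scoped ENNReal Nat

namespace Pool.Agent.W214.N4
open Pool.Agent.Helper82.OS hiding uu
open Pool.Agent.W546.ST Pool.Agent.W546.N4

lemma B_meas (G : NP) : Measurable G.B := by
  unfold NP.B NP.gv
  simp only [Matrix.mulVec, dotProduct]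
  fun_prop

lemma Z_meas (G : NP) (b : Fin 5) : Measurable (fun w => G.Z w b) := by
  unfold NP.Z NP.gv
  simp only [Matrix.mulVec, dotProduct]
  fun_prop

lemma Z2_meas (G : NP) : Measurable (fun w => ∑ b, G.Z w b ^ 2) :=
  Finset.measurable_fun_sum _ fun b _ => (Z_meas G b).pow_const 2

lemma P_meas (G : NP) : Measurable G.P := by
  unfold NP.P
  exact (Z2_meas G).div uu_meas

lemma k_meas (G : NP) : Measurable G.k := by
  unfold NP.k
  have h : Measurable (fun w : E 5 => w 4) := by fun_prop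
  exact (h.mul (Z_meas G 4)).div uu_meas

lemma gm_meas (G : NP) (w : E 5) : Measurable (fun t => Real.sqrt (G.gm t w).det) := by
  have h : Continuous (fun t => G.gm t w) := by
    refine continuous_matrix fun i j => ?_
    unfold NP.gm
    simp only [Matrix.of_apply]
    refine Continuous.add (continuous_finsetSum _ fun b _ => Continuous.mul ?_ ?_)
      continuous_const
    · refine Continuous.add ?_ continuous_const
      split_ifs
      · exact continuous_id
      · exact continuous_const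
    · refine Continuous.add ?_ continuous_const
      split_ifs
      · exact continuous_id
      · exact continuous_const
  exact (Real.continuous_sqrt.comp h.matrix_det).measurable

/-- measurability of weights -/
lemma Me_w {F : ℝ → ℝ → ℝ → ℝ} (hF : Measurable (fun p : ℝ × ℝ × ℝ => F p.1 p.2.1 p.2.2))
    {f : E 5 → ℝ} (hf : Measurable f) : Me (fun t w => F t (uu w) (w 4) * f w) := by
  unfold Me
  have h1 : Measurable (fun p : E 5 × ℝ => (p.2, uu p.1, p.1 4)) := by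
    refine measurable_snd.prodMk ((uu_meas.comp measurable_fst).prodMk ?_)
    have : Measurable (fun w : E 5 => w 4) := by fun_prop
    exact this.comp measurable_fst
  exact (hF.comp h1).mul (hf.comp measurable_fst)

lemma Me_w0 {F : ℝ → ℝ → ℝ → ℝ} (hF : Measurable (fun p : ℝ × ℝ × ℝ => F p.1 p.2.1 p.2.2)) :
    Me (fun t w => F t (uu w) (w 4)) := by
  have := Me_w hF (measurable_const (a := (1 : ℝ)))
  simpa using this

lemma II_eq (F : ℝ → ℝ → ℝ → ℝ) : II F = L (fun t w => F t (uu w) (w 4)) := rfl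
lemma IW_eq (F : ℝ → ℝ → ℝ → ℝ) (f : E 5 → ℝ) :
    IW F f = L (fun t w => F t (uu w) (w 4) * f w) := rfl

/-- the total weight of `B²` -/
noncomputable def Ft (A1 A2 A3 A4 t u v : ℝ) : ℝ :=
  (A1 * Real.sqrt u + A2 * (1 / Real.sqrt u)) + (A3 * (|t| / Real.sqrt (t ^ 2 + u)) +
    A4 * (1 + v ^ 2 / (2 * |u|)))

lemma IIF {A1 A2 A3 A4 : ℝ} (h1 : 0 ≤ A1) (h2 : 0 ≤ A2) (h3 : 0 ≤ A3) (h4 : 0 ≤ A4)
    {m : ℝ → ℝ → ℝ} (hm : Measurable (fun p : ℝ × ℝ => m p.1 p.2))
    (hm0 : ∀ u v, 0 ≤ u → 0 ≤ m u v) :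
    II (fun t u v => Ft A1 A2 A3 A4 t u v * m u v) =
      ENNReal.ofReal A1 * II (fun _ u v => Real.sqrt u * m u v) +
      (ENNReal.ofReal A2 * II (fun _ u v => 1 / Real.sqrt u * m u v) +
      (ENNReal.ofReal A3 * II (fun t u v => |t| / Real.sqrt (t ^ 2 + u) * m u v) +
      ENNReal.ofReal A4 * II (fun _ u v => (1 + v ^ 2 / (2 * u)) * m u v))) := by
  have hm' : Measurable (fun p : ℝ × ℝ × ℝ => m p.2.1 p.2.2) := hm.comp measurable_snd
  simp only [II_eq]
  rw [← L_const A1 h1, ← L_const A2 h2, ← L_const A3 h3, ← L_const A4 h4, ← L_add, ← L_add,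
    ← L_add]
  · refine L_congr fun w _ t => ?_
    have := uu_nonneg w
    unfold Ft
    rw [abs_of_nonneg this]
    ring
  · exact Me_w0 (F := fun t u v => A1 * (Real.sqrt u * m u v)) (by fun_prop)
  · intro t w
    have := hm0 _ (w 4) (uu_nonneg w)
    positivity
  · intro t w
    have := hm0 _ (w 4) (uu_nonneg w)
    have := uu_nonneg w
    positivity
  · exact Me_w0 (F := fun t u v => A2 * (1 / Real.sqrt u * m u v)) (by fun_prop)
  · intro t w
    have := hm0 _ (w 4) (uu_nonneg w)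
    positivity
  · intro t w
    have := hm0 _ (w 4) (uu_nonneg w)
    have := uu_nonneg w
    positivity
  · exact Me_w0 (F := fun t u v => A3 * (|t| / Real.sqrt (t ^ 2 + u) * m u v)) (by fun_prop)
  · intro t w
    have := hm0 _ (w 4) (uu_nonneg w)
    positivity
  · intro t w
    have := hm0 _ (w 4) (uu_nonneg w)
    have := uu_nonneg w
    positivity

lemma Me_ph {u b : E 5 → ℝ} (hu : Measurable u) (hb : Measurable b) :
    Me (fun t w => Real.sqrt (t ^ 2 + u w) * ph t (b w)) := by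
  unfold Me ph
  fun_prop

lemma Me_const {f : ℝ → E 5 → ℝ} (hf : Me f) (c : ℝ) : Me (fun t w => c * f t w) :=
  Measurable.const_mul hf c

theorem NEAR (h1 : St4_PW) (h2 : St4_SL) (h3 : St4_PHI) (h4 : St4_M) (h5 : St4_BD)
    (h6 : St4_RAD) : St4_NEAR := by
  intro G hG
  obtain ⟨r1, r2, r3, r4, r5, r6, r7, r8, r9, r10, r11, r12, r13, r14, r15, r16, r17⟩ := h6
  have hr := r2p_pos
  have hc : 0 < c0 := by unfold c0; have := Real.pi_pos; positivity
  have hD0 : 0 ≤ G.D := by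
    unfold NP.D
    exact mul_nonneg (by norm_num) (Finset.sum_nonneg fun _ _ => Finset.sum_nonneg fun _ _ =>
      Finset.sum_nonneg fun _ _ => sq_nonneg _)
  have hR0 : 0 ≤ G.R2 := Finset.sum_nonneg fun _ _ => Finset.sum_nonneg fun _ _ => sq_nonneg _
  have hs0 : 0 ≤ G.Rs := Finset.sum_nonneg fun _ _ => Finset.sum_nonneg fun _ _ => sq_nonneg _
  obtain ⟨-, -, hRD, hRs, hs2⟩ := h5 G 0
  have hPB : ∀ w, 0 ≤ G.P w ∧ G.P w ≤ G.B w := by
    intro w
    by_cases hw : uu w = 0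
    · have : G.P w = 0 := by unfold NP.P; rw [hw, div_zero]
      rw [this]; exact ⟨le_rfl, (h5 G w).1⟩
    · exact ⟨(h1 G 0 w hw).1, (h1 G 0 w hw).2.1⟩
  have hb0 : ∀ w, 0 ≤ (G.B w - G.P w) / 3 := fun w => by have := (hPB w).2; linarith
  have hB0 : ∀ w, 0 ≤ G.B w := fun w => (h5 G w).1
  have hZ2 : ∀ w, 0 ≤ ∑ b, G.Z w b ^ 2 := fun w => Finset.sum_nonneg fun _ _ => sq_nonneg _
  have hbm : Measurable (fun w => (G.B w - G.P w) / 3) :=
    ((B_meas G).sub (P_meas G)).div_const 3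
  -- the pieces
  obtain ⟨Ta, hTa⟩ : ∃ f : ℝ → E 5 → ℝ, f = fun t w => Real.sqrt (t ^ 2 + uu w) * |t| ^ 3 :=
    ⟨_, rfl⟩
  obtain ⟨Tb, hTb⟩ : ∃ f : ℝ → E 5 → ℝ, f = fun t w =>
    1 / 2 * (Real.sqrt (t ^ 2 + uu w) * |t| * G.B w) := ⟨_, rfl⟩
  obtain ⟨Tk, hTk⟩ : ∃ f : ℝ → E 5 → ℝ, f = fun t w =>
    37 / 200 * (Real.sqrt (t ^ 2 + uu w) * |t| * G.k w ^ 2) := ⟨_, rfl⟩
  obtain ⟨Tp, hTp⟩ : ∃ f : ℝ → E 5 → ℝ, f = fun t w =>
    Real.sqrt (t ^ 2 + uu w) * ph t ((G.B w - G.P w) / 3) := ⟨_, rfl⟩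
  obtain ⟨Te, hTe⟩ : ∃ f : ℝ → E 5 → ℝ, f = fun t w =>
    (1 / 16 * (|t| / Real.sqrt (t ^ 2 + uu w)) +
      179 / 10000 * Real.sqrt G.D * (1 + w 4 ^ 2 / (2 * |uu w|))) * G.B w ^ 2 := ⟨_, rfl⟩
  obtain ⟨Tf, hTf⟩ : ∃ f : ℝ → E 5 → ℝ, f = fun t w =>
    37 / 400 * G.D * (|t| / Real.sqrt (t ^ 2 + uu w) * (|uu w| + w 4 ^ 2) * G.k w ^ 2) := ⟨_, rfl⟩
  obtain ⟨Tz, hTz⟩ : ∃ f : ℝ → E 5 → ℝ, f = fun t w =>
    1 / 2 * (|t| / Real.sqrt (t ^ 2 + uu w) * ∑ b, G.Z w b ^ 2) := ⟨_, rfl⟩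
  have pTa : ∀ t w, 0 ≤ Ta t w := fun t w => by rw [hTa]; positivity
  have pTb : ∀ t w, 0 ≤ Tb t w := fun t w => by
    rw [hTb]; have := hB0 w; simp only; positivity
  have pTk : ∀ t w, 0 ≤ Tk t w := fun t w => by rw [hTk]; positivity
  have pTp : ∀ t w, 0 ≤ Tp t w := fun t w => by
    rw [hTp]; exact mul_nonneg (Real.sqrt_nonneg _) (ph_nonneg _ _ (hb0 w))
  have pTe : ∀ t w, 0 ≤ Te t w := fun t w => by rw [hTe]; positivity
  have pTf : ∀ t w, 0 ≤ Tf t w := fun t w => by rw [hTf]; positivity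
  have pTz : ∀ t w, 0 ≤ Tz t w := fun t w => by
    rw [hTz]; have := hZ2 w; simp only; positivity
  have mTa : Me Ta := by
    rw [hTa]; exact Me_w0 (F := fun t u _ => Real.sqrt (t ^ 2 + u) * |t| ^ 3) (by fun_prop)
  have mTb : Me Tb := by
    rw [hTb]
    exact Me_const (Me_w (F := fun t u _ => Real.sqrt (t ^ 2 + u) * |t|) (by fun_prop)
      (B_meas G)) _
  have mTk : Me Tk := by
    rw [hTk]
    exact Me_const (Me_w (F := fun t u _ => Real.sqrt (t ^ 2 + u) * |t|) (by fun_prop)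
      ((k_meas G).pow_const 2)) _
  have mTp : Me Tp := by rw [hTp]; exact Me_ph uu_meas hbm
  have mTe : Me Te := by
    rw [hTe]
    exact Me_w (F := fun t u v => 1 / 16 * (|t| / Real.sqrt (t ^ 2 + u)) +
      179 / 10000 * Real.sqrt G.D * (1 + v ^ 2 / (2 * |u|))) (by fun_prop)
      ((B_meas G).pow_const 2)
  -- the main inequality
  have hsum : L (fun t w => Ta t w + (Tb t w + (Tk t w + (Tp t w + (Te t w + Tf t w))))) =
      L Ta + (L Tb + (L Tk + (L Tp + (L Te + L Tf)))) := by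
    rw [L_add mTa pTa, L_add mTb pTb, L_add mTk pTk, L_add mTp pTp, L_add mTe pTe pTf]
    · intro t w; have := pTe t w; have := pTf t w; linarith
    · intro t w; have := pTe t w; have := pTf t w; have := pTp t w; linarith
    · intro t w; have := pTe t w; have := pTf t w; have := pTp t w; have := pTk t w; linarith
    · intro t w
      have := pTe t w; have := pTf t w; have := pTp t w; have := pTk t w; have := pTb t w
      linarith
  have hA : GNP G = L (fun t w => (Real.sqrt (G.gm t w).det + Real.sqrt (G.gm (-t) w).det) / 2) :=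
    L_sym (f := fun t w => Real.sqrt (G.gm t w).det) (gm_meas G) (fun _ _ => Real.sqrt_nonneg _)
  have hB : GNP G + L Tz ≤ L Ta + (L Tb + (L Tk + (L Tp + (L Te + L Tf)))) := by
    rw [hA, ← hsum]
    refine (L_add_le (fun t w => by positivity) pTz).trans (L_mono fun w hw t => ?_)
    have hu : 0 < uu w := lt_of_le_of_ne (uu_nonneg w) (Ne.symm hw)
    have e1 := (h1 G t w hw).2.2
    have e2 := ptw t (uu w) (w 4) (G.k w ^ 2) (G.P w) (G.B w) G.D (∑ b, G.Z w b ^ 2) hu
      (sq_nonneg _) (hPB w).1 (hPB w).2 (h5 G w).2.1 hD0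
      (by unfold NP.P; rw [div_mul_cancel₀ _ hw])
    rw [hTa, hTb, hTk, hTp, hTe, hTf, hTz]
    simp only
    linarith
  -- the values of the pieces
  have vTa : L Ta = ENNReal.ofReal (c0 * (35 / 8)) := by rw [hTa]; exact r1
  have hRR : 0 ≤ (2 * G.D - G.R2) / 4 := by linarith
  have vTb : L Tb = ENNReal.ofReal (1 / 2 * ((2 * G.D - G.R2) / 4 * (c0 * (35 / 4)) +
      G.R2 * (c0 * (15 / 8)))) := by
    have e1 : L Tb = ENNReal.ofReal (1 / 2) *
        IW (fun t u _ => Real.sqrt (t ^ 2 + u) * |t|) G.B := by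
      rw [hTb]; exact L_const _ (by norm_num) _
    have e2 := (h4 G (fun t u _ => Real.sqrt (t ^ 2 + u) * |t|) (by fun_prop)
      (fun t u v => by positivity)).1
    rw [e1, e2, r2, r3, ← ENNReal.ofReal_mul hRR, ← ENNReal.ofReal_mul hR0,
      ← ENNReal.ofReal_add (by positivity) (by positivity), ← ENNReal.ofReal_mul (by norm_num)]
  have vTk : L Tk = ENNReal.ofReal (37 / 200 * (G.Rs / 12 * (c0 * (15 / 8)))) := by
    have e1 : L Tk = ENNReal.ofReal (37 / 200) *
        IW (fun t u _ => Real.sqrt (t ^ 2 + u) * |t|) (fun w => G.k w ^ 2) := by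
      rw [hTk]; exact L_const _ (by norm_num) _
    have e2 := (h4 G (fun t u _ => Real.sqrt (t ^ 2 + u) * |t|) (by fun_prop)
      (fun t u v => by positivity)).2.2.2
    rw [e1, e2, r3, ← ENNReal.ofReal_mul (by positivity), ← ENNReal.ofReal_mul (by norm_num)]
  have vTz : L Tz = ENNReal.ofReal (1 / 2 * (G.s2 / 12 * (c0 * (105 / 16)) +
      G.R2 / 4 * (c0 * (5 / 4)))) := by
    have e1 : L Tz = ENNReal.ofReal (1 / 2) *
        IW (fun t u _ => |t| / Real.sqrt (t ^ 2 + u)) (fun w => ∑ b, G.Z w b ^ 2) := by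
      rw [hTz]; exact L_const _ (by norm_num) _
    have e2 := (h4 G (fun t u _ => |t| / Real.sqrt (t ^ 2 + u)) (by fun_prop)
      (fun t u v => by positivity)).2.2.1
    rw [e1, e2, r4, r5, ← ENNReal.ofReal_mul (by positivity), ← ENNReal.ofReal_mul (by positivity),
      ← ENNReal.ofReal_add (by positivity) (by positivity), ← ENNReal.ofReal_mul (by norm_num)]
  have vTf : L Tf = ENNReal.ofReal (37 / 400 * G.D * (G.Rs / 12 * (c0 * (5 / 4) +
      c0 * (9 / 8)))) := by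
    have e1 : L Tf = ENNReal.ofReal (37 / 400 * G.D) *
        IW (fun t u v => |t| / Real.sqrt (t ^ 2 + u) * (|u| + v ^ 2)) (fun w => G.k w ^ 2) := by
      rw [hTf]; exact L_const _ (by positivity) _
    have e2 := (h4 G (fun t u v => |t| / Real.sqrt (t ^ 2 + u) * (|u| + v ^ 2)) (by fun_prop)
      (fun t u v => by positivity)).2.2.2
    have e3 : II (fun t u v => |t| / Real.sqrt (t ^ 2 + u) * (|u| + v ^ 2) * v ^ 2) =
        ENNReal.ofReal (c0 * (5 / 4) + c0 * (9 / 8)) := by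
      rw [ENNReal.ofReal_add (by positivity) (by positivity), ← r5, ← r6, II_eq, II_eq, II_eq,
        ← L_add (Me_w0 (F := fun t u v => |t| / Real.sqrt (t ^ 2 + u) * (u * v ^ 2))
          (by fun_prop))]
      · refine L_congr fun w _ t => ?_
        rw [abs_of_nonneg (uu_nonneg w)]
        ring
      · intro t w
        have := uu_nonneg w
        positivity
      · intro t w
        have := uu_nonneg w
        positivity
    rw [e1, e2, e3, ← ENNReal.ofReal_mul (by positivity), ← ENNReal.ofReal_mul (by positivity)]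
  -- the second order term
  obtain ⟨A1, hA1⟩ : ∃ A, A = 203 / 900 / r2p := ⟨_, rfl⟩
  obtain ⟨A2, hA2⟩ : ∃ A, A = 1 / 24 / r2p := ⟨_, rfl⟩
  obtain ⟨A5, hA5⟩ : ∃ A, A = 3 / 400 / r2p := ⟨_, rfl⟩
  obtain ⟨A4, hA4⟩ : ∃ A, A = 179 / 10000 * Real.sqrt G.D := ⟨_, rfl⟩
  have pA1 : 0 ≤ A1 := by rw [hA1]; positivity
  have pA2 : 0 ≤ A2 := by rw [hA2]; positivity
  have pA5 : 0 ≤ A5 := by rw [hA5]; positivity
  have pA4 : 0 ≤ A4 := by rw [hA4]; positivity
  have vTp : L Tp ≤ L (fun t w => (A1 * Real.sqrt (uu w) + A2 * (1 / Real.sqrt (uu w))) *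
      G.B w ^ 2) + ENNReal.ofReal A5 * IW (fun _ u _ => Real.sqrt u) G.B := by
    have e1 : L Tp ≤ L (fun _ w => (Real.sqrt (uu w) * (203 / 900 * G.B w ^ 2 + 3 / 400 * G.B w) +
        1 / 24 * G.B w ^ 2 / Real.sqrt (uu w)) / r2p) := by
      refine L_inner Tp _ (fun w _ => ?_) (fun w hw => ?_)
      · have := hB0 w; positivity
      · have hu : 0 < uu w := lt_of_le_of_ne (uu_nonneg w) (Ne.symm hw)
        have e2 := h3 (uu w) ((G.B w - G.P w) / 3) hu (hb0 w)
        rw [hTp]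
        refine e2.trans (ENNReal.ofReal_le_ofReal ?_)
        have hb1 : (G.B w - G.P w) / 3 ≤ G.B w / 3 := by have := (hPB w).1; linarith
        have hb2 : ((G.B w - G.P w) / 3) ^ 2 ≤ (G.B w / 3) ^ 2 :=
          pow_le_pow_left₀ (hb0 w) hb1 2
        have hsu : 0 < Real.sqrt (uu w) := Real.sqrt_pos.2 hu
        have e3 : Real.sqrt (uu w) * (203 / 100 * ((G.B w - G.P w) / 3) ^ 2 +
            9 / 400 * ((G.B w - G.P w) / 3)) ≤
            Real.sqrt (uu w) * (203 / 900 * G.B w ^ 2 + 3 / 400 * G.B w) := by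
          apply mul_le_mul_of_nonneg_left _ hsu.le
          linarith
        have e4 : 3 / 8 * ((G.B w - G.P w) / 3) ^ 2 / Real.sqrt (uu w) ≤
            1 / 24 * G.B w ^ 2 / Real.sqrt (uu w) := by
          apply div_le_div_of_nonneg_right _ hsu.le
          linarith
        linarith
    refine e1.trans (le_of_eq ?_)
    have e5 : ENNReal.ofReal A5 * IW (fun _ u _ => Real.sqrt u) G.B =
        L (fun _ w => A5 * (Real.sqrt (uu w) * G.B w)) := (L_const A5 pA5 _).symm
    rw [e5, ← L_add]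
    · refine L_congr fun w _ t => ?_
      rw [hA1, hA2, hA5]
      ring
    · exact Me_w (F := fun _ u _ => A1 * Real.sqrt u + A2 * (1 / Real.sqrt u)) (by fun_prop)
        ((B_meas G).pow_const 2)
    · intro t w
      positivity
    · intro t w
      have := hB0 w
      positivity
  have vE : L (fun t w => (A1 * Real.sqrt (uu w) + A2 * (1 / Real.sqrt (uu w))) *
      G.B w ^ 2) + L Te = IW (Ft A1 A2 (1 / 16) A4) (fun w => G.B w ^ 2) := by
    rw [IW_eq, ← L_add]
    · refine L_congr fun w _ t => ?_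
      rw [hTe, hA4]
      unfold Ft
      ring
    · exact Me_w (F := fun _ u _ => A1 * Real.sqrt u + A2 * (1 / Real.sqrt u)) (by fun_prop)
        ((B_meas G).pow_const 2)
    · intro t w
      positivity
    · exact pTe
  obtain ⟨K, hK⟩ : ∃ K, K = c0 * (270303 / 1000000 + 403 / 10000 * Real.sqrt G.D) := ⟨_, rfl⟩
  have pK : 0 ≤ K := by rw [hK]; positivity
  have hq0 : 0 ≤ Real.sqrt G.D := Real.sqrt_nonneg _
  have cA1 : ∀ x, A1 * (c0 * r2p * x) = c0 * (203 / 900 * x) := by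
    intro x; rw [hA1]; field_simp
  have cA2 : ∀ x, A2 * (c0 * r2p * x) = c0 * (1 / 24 * x) := by
    intro x; rw [hA2]; field_simp
  have k1 : II (fun t u v => Ft A1 A2 (1 / 16) A4 t u v * u ^ 2) ≤ 24 * ENNReal.ofReal K := by
    rw [IIF pA1 pA2 (by norm_num) pA4 (m := fun u _ => u ^ 2) (by fun_prop)
      (fun u v _ => by positivity), r7, r12, r4, r15, ← ENNReal.ofReal_mul pA1,
      ← ENNReal.ofReal_mul pA2, ← ENNReal.ofReal_mul (by norm_num), ← ENNReal.ofReal_mul pA4,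
      ← ENNReal.ofReal_add (by positivity) (by positivity),
      ← ENNReal.ofReal_add (by positivity) (by positivity),
      ← ENNReal.ofReal_add (by positivity) (by positivity),
      show (24 : ℝ≥0∞) = ENNReal.ofReal 24 by simp, ← ENNReal.ofReal_mul (by norm_num)]
    refine ENNReal.ofReal_le_ofReal ?_
    rw [cA1, cA2, hA4, hK]
    nlinarith [mul_nonneg hc.le hq0]
  have k2 : II (fun t u v => Ft A1 A2 (1 / 16) A4 t u v * (u * v ^ 2)) ≤
      4 * ENNReal.ofReal K := by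
    rw [IIF pA1 pA2 (by norm_num) pA4 (m := fun u v => u * v ^ 2) (by fun_prop)
      (fun u v _ => by positivity), r8, r13, r5, r16, ← ENNReal.ofReal_mul pA1,
      ← ENNReal.ofReal_mul pA2, ← ENNReal.ofReal_mul (by norm_num), ← ENNReal.ofReal_mul pA4,
      ← ENNReal.ofReal_add (by positivity) (by positivity),
      ← ENNReal.ofReal_add (by positivity) (by positivity),
      ← ENNReal.ofReal_add (by positivity) (by positivity),
      show (4 : ℝ≥0∞) = ENNReal.ofReal 4 by simp, ← ENNReal.ofReal_mul (by norm_num)]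
    refine ENNReal.ofReal_le_ofReal ?_
    rw [cA1, cA2, hA4, hK]
    nlinarith [mul_nonneg hc.le hq0]
  have k3 : II (fun t u v => Ft A1 A2 (1 / 16) A4 t u v * v ^ 4) ≤ 3 * ENNReal.ofReal K := by
    rw [IIF pA1 pA2 (by norm_num) pA4 (m := fun _ v => v ^ 4) (by fun_prop)
      (fun u v _ => by positivity), r9, r14, r6, r17, ← ENNReal.ofReal_mul pA1,
      ← ENNReal.ofReal_mul pA2, ← ENNReal.ofReal_mul (by norm_num), ← ENNReal.ofReal_mul pA4,
      ← ENNReal.ofReal_add (by positivity) (by positivity),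
      ← ENNReal.ofReal_add (by positivity) (by positivity),
      ← ENNReal.ofReal_add (by positivity) (by positivity),
      show (3 : ℝ≥0∞) = ENNReal.ofReal 3 by simp, ← ENNReal.ofReal_mul (by norm_num)]
    refine ENNReal.ofReal_le_ofReal ?_
    rw [cA1, cA2, hA4, hK]
    nlinarith [mul_nonneg hc.le hq0]
  have vE2 : IW (Ft A1 A2 (1 / 16) A4) (fun w => G.B w ^ 2) ≤
      ENNReal.ofReal (8 * G.D ^ 2 * K) := by
    rw [ENNReal.ofReal_mul (by positivity)]
    refine (h4 G (Ft A1 A2 (1 / 16) A4) ?_ ?_).2.1 (ENNReal.ofReal K) k1 k2 k3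
    · unfold Ft
      fun_prop
    · intro t u v
      unfold Ft
      positivity
  have v5 : ENNReal.ofReal A5 * IW (fun _ u _ => Real.sqrt u) G.B =
      ENNReal.ofReal (A5 * ((2 * G.D - G.R2) / 4 * (c0 * r2p * (15 / 4)) +
        G.R2 * (c0 * r2p * (3 / 4)))) := by
    have e2 := (h4 G (fun _ u _ => Real.sqrt u) (by fun_prop) (fun t u v => by positivity)).1
    rw [e2, r10, r11, ← ENNReal.ofReal_mul hRR, ← ENNReal.ofReal_mul hR0,
      ← ENNReal.ofReal_add (by positivity) (by positivity), ← ENNReal.ofReal_mul pA5]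
  -- assembly
  obtain ⟨yB, hyB⟩ : ∃ y, y = 1 / 2 * ((2 * G.D - G.R2) / 4 * (c0 * (35 / 4)) +
      G.R2 * (c0 * (15 / 8))) := ⟨_, rfl⟩
  obtain ⟨yk, hyk⟩ : ∃ y, y = 37 / 200 * (G.Rs / 12 * (c0 * (15 / 8))) := ⟨_, rfl⟩
  obtain ⟨yE, hyE⟩ : ∃ y, y = 8 * G.D ^ 2 * K := ⟨_, rfl⟩
  obtain ⟨y5, hy5⟩ : ∃ y, y = A5 * ((2 * G.D - G.R2) / 4 * (c0 * r2p * (15 / 4)) +
        G.R2 * (c0 * r2p * (3 / 4))) := ⟨_, rfl⟩
  obtain ⟨yf, hyf⟩ : ∃ y, y = 37 / 400 * G.D * (G.Rs / 12 * (c0 * (5 / 4) +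
      c0 * (9 / 8))) := ⟨_, rfl⟩
  obtain ⟨z, hz⟩ : ∃ y, y = 1 / 2 * (G.s2 / 12 * (c0 * (105 / 16)) +
      G.R2 / 4 * (c0 * (5 / 4))) := ⟨_, rfl⟩
  have pyB : 0 ≤ yB := by rw [hyB]; positivity
  have pyk : 0 ≤ yk := by rw [hyk]; positivity
  have pyE : 0 ≤ yE := by rw [hyE]; positivity
  have py5 : 0 ≤ y5 := by rw [hy5]; positivity
  have pyf : 0 ≤ yf := by rw [hyf]; positivity
  have pz : 0 ≤ z := by rw [hz]; positivity
  have hfin : GNP G + ENNReal.ofReal z ≤
      ENNReal.ofReal (c0 * (35 / 8) + (yB + (yk + (yE + y5 + yf)))) := by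
    rw [ENNReal.ofReal_add (by positivity) (by positivity), ENNReal.ofReal_add pyB (by positivity),
      ENNReal.ofReal_add pyk (by positivity), ENNReal.ofReal_add (by positivity) pyf,
      ENNReal.ofReal_add pyE py5]
    rw [hz, ← vTz]
    refine hB.trans ?_
    rw [vTa, vTb, vTk, vTf, ← hyB, ← hyk, ← hyf]
    have e1 : L Tp + L Te ≤ ENNReal.ofReal yE + ENNReal.ofReal y5 := by
      rw [v5, ← hy5] at vTp
      calc L Tp + L Te ≤ (L (fun t w => (A1 * Real.sqrt (uu w) + A2 * (1 / Real.sqrt (uu w))) *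
            G.B w ^ 2) + ENNReal.ofReal y5) + L Te := add_le_add_left vTp _
        _ = (L (fun t w => (A1 * Real.sqrt (uu w) + A2 * (1 / Real.sqrt (uu w))) *
            G.B w ^ 2) + L Te) + ENNReal.ofReal y5 := by ring
        _ ≤ ENNReal.ofReal yE + ENNReal.ofReal y5 := by
            rw [vE, hyE]; exact add_le_add_left vE2 _
    refine add_le_add le_rfl (add_le_add le_rfl (add_le_add le_rfl ?_))
    rw [← add_assoc]
    exact add_le_add e1 le_rfl
  have hle := ENNReal.le_sub_of_add_le_right ENNReal.ofReal_ne_top hfin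
  rw [← ENNReal.ofReal_sub _ pz] at hle
  refine hle.trans ?_
  have hq2 : Real.sqrt G.D ^ 2 = G.D := Real.sq_sqrt hD0
  have hnum := num G.D (Real.sqrt G.D) G.R2 G.Rs G.s2 G.x0 G.xe hq2 hR0 hRD hRs G.hx
    (by have := h2 G; linarith) hG
  have hDs : G.D ≤ 39 / 500 := by
    rcases hG with h | h
    · linarith
    · exact h.1
  rw [← ENNReal.ofReal_mul (mul_nonneg (Real.sqrt_nonneg _) (by linarith))]
  refine ENNReal.ofReal_le_ofReal ?_
  have hy5' : y5 = c0 * (3 / 400 * ((2 * G.D - G.R2) / 4 * (15 / 4) + G.R2 * (3 / 4))) := by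
    rw [hy5, hA5]; field_simp
  have hfinal := mul_le_mul_of_nonneg_left hnum hc.le
  rw [hyB, hyk, hyE, hy5', hyf, hz, hK]
  refine le_trans (le_of_eq ?_) (hfinal.trans (le_of_eq ?_))
  · ring
  · ring

end Pool.Agent.W214.N4
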