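import Pool.Agent.W546.N4.Defs

/-!
Project N4 (helper214 for helper546): pointwise estimates for the near region.
-/

set_option autoImplicit false
open Matrix MeasureTheory Set Metric Filter Topology
open scoped ENNReal Nat

namespace Pool.Agent.W214.N4
open Pool.Agent.Helper82.OS Pool.Agent.W546.ST Pool.Agent.W546.N4

/-- the second order remainder -/
noncomputable def ph (t b : ℝ) : ℝ := Real.sqrt ((t ^ 2 + b) ^ 3) - |t| ^ 3 - 3 / 2 * b * |t|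

lemma ph_eq (t b : ℝ) (hb : 0 ≤ b) : ph t b =
    (Real.sqrt (t ^ 2 + b) - |t|) ^ 2 * (2 * Real.sqrt (t ^ 2 + b) + |t|) / 2 := by
  have h0 : 0 ≤ t ^ 2 + b := by positivity
  obtain ⟨r, hr⟩ : ∃ r, r = Real.sqrt (t ^ 2 + b) := ⟨_, rfl⟩
  have hr0 : 0 ≤ r := by rw [hr]; positivity
  have hr2 : r ^ 2 = t ^ 2 + b := by rw [hr]; exact Real.sq_sqrt h0
  have e1 : Real.sqrt ((t ^ 2 + b) ^ 3) = r ^ 3 := by
    rw [← hr2, show (r ^ 2) ^ 3 = (r ^ 3) ^ 2 by ring, Real.sqrt_sq (by positivity)]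
  have e2 : b = r ^ 2 - |t| ^ 2 := by rw [sq_abs]; linarith
  unfold ph
  rw [e1, ← hr, e2]
  ring

lemma ph_nonneg (t b : ℝ) (hb : 0 ≤ b) : 0 ≤ ph t b := by
  rw [ph_eq t b hb]
  positivity

lemma ph_le (t b : ℝ) (hb : 0 ≤ b) : ph t b ≤ Real.sqrt (b ^ 3) := by
  have h0 : 0 ≤ t ^ 2 + b := by positivity
  refine Real.le_sqrt_of_sq_le ?_
  rw [ph_eq t b hb]
  obtain ⟨r, hr⟩ : ∃ r, r = Real.sqrt (t ^ 2 + b) := ⟨_, rfl⟩
  rw [← hr]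
  have hr0 : 0 ≤ r := by rw [hr]; positivity
  have hr2 : r ^ 2 = t ^ 2 + b := by rw [hr]; exact Real.sq_sqrt h0
  obtain ⟨s, hs⟩ : ∃ s, s = |t| := ⟨_, rfl⟩
  rw [← hs]
  have hs0 : 0 ≤ s := by rw [hs]; exact abs_nonneg t
  have hs2 : s ^ 2 = t ^ 2 := by rw [hs]; exact sq_abs t
  have hsr : s ≤ r := by
    refine abs_le_of_sq_le_sq' ?_ hr0 |>.2
    rw [hs2, hr2]; linarith
  have e2 : b = r ^ 2 - s ^ 2 := by rw [hs2]; linarith
  have h3 : 0 ≤ (r - s) ^ 3 * (3 * r ^ 2 * s + 15 / 4 * r * s ^ 2 + 5 / 4 * s ^ 3) := by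
    have : 0 ≤ r - s := by linarith
    positivity
  have h4 : b ^ 3 - ((r - s) ^ 2 * (2 * r + s) / 2) ^ 2 =
      (r - s) ^ 3 * (3 * r ^ 2 * s + 15 / 4 * r * s ^ 2 + 5 / 4 * s ^ 3) := by
    rw [e2]; ring
  linarith

lemma pq_le (p q : ℝ) (hp : 0 ≤ p) (hq : 0 ≤ q) :
    p * Real.sqrt ((q / 3) ^ 3) ≤ 358 / 10000 * ((p + q) ^ 2 * Real.sqrt (p + q)) := by
  have hq3 : 0 ≤ (q / 3) ^ 3 := by positivity
  have hpq : 0 ≤ p + q := by positivity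
  refine (abs_le_of_sq_le_sq' ?_ (by positivity)).2
  rw [mul_pow, Real.sq_sqrt hq3, mul_pow, mul_pow, Real.sq_sqrt hpq]
  have h1 : 0 ≤ (p - 2 / 5 * (p + q)) ^ 2 * (96 / 1000 * p ^ 3 + 608 / 1000 * p ^ 2 * q +
      1728 / 1000 * p * q ^ 2 + 216 / 1000 * q ^ 3) := by positivity
  have h2 : 108 / 3125 * (p + q) ^ 5 - p ^ 2 * q ^ 3 =
      (p - 2 / 5 * (p + q)) ^ 2 * (96 / 1000 * p ^ 3 + 608 / 1000 * p ^ 2 * q +
      1728 / 1000 * p * q ^ 2 + 216 / 1000 * q ^ 3) := by ring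
  have h3 : 0 ≤ (p + q) ^ 5 := by positivity
  have h4 : p ^ 2 * (q / 3) ^ 3 = p ^ 2 * q ^ 3 / 27 := by ring
  have h5 : ((p + q) ^ 2) ^ 2 * (p + q) = (p + q) ^ 5 := by ring
  rw [h4, h5]
  nlinarith

/-- the pointwise estimate -/
lemma ptw (t u v κ P B D Z2 : ℝ) (hu : 0 < u) (hκ : 0 ≤ κ) (hP : 0 ≤ P) (hPB : P ≤ B)
    (hBD : B ≤ D * (u + v ^ 2)) (hD : 0 ≤ D) (hZ : P * u = Z2) :
    Real.sqrt (t ^ 2 + u + P) * (Real.sqrt ((t ^ 2 + (B - P) / 3) ^ 3) + 37 / 200 * |t| * κ) +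
      1 / 2 * (|t| / Real.sqrt (t ^ 2 + u) * Z2) ≤
    Real.sqrt (t ^ 2 + u) * |t| ^ 3 + 1 / 2 * (Real.sqrt (t ^ 2 + u) * |t| * B) +
      37 / 200 * (Real.sqrt (t ^ 2 + u) * |t| * κ) + Real.sqrt (t ^ 2 + u) * ph t ((B - P) / 3) +
      (1 / 16 * (|t| / Real.sqrt (t ^ 2 + u)) +
        179 / 10000 * Real.sqrt D * (1 + v ^ 2 / (2 * |u|))) * B ^ 2 +
      37 / 400 * D * (|t| / Real.sqrt (t ^ 2 + u) * (|u| + v ^ 2) * κ) := by
  have hB : 0 ≤ B := hP.trans hPB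
  have hb : 0 ≤ (B - P) / 3 := by linarith
  rw [abs_of_pos hu]
  have hg0 : 0 < t ^ 2 + u := by positivity
  obtain ⟨g, hg⟩ : ∃ g, g = Real.sqrt (t ^ 2 + u) := ⟨_, rfl⟩
  rw [← hg]
  have hgp : 0 < g := by rw [hg]; exact Real.sqrt_pos.2 hg0
  obtain ⟨s, hs⟩ : ∃ s, s = |t| := ⟨_, rfl⟩
  have hs0 : 0 ≤ s := by rw [hs]; exact abs_nonneg t
  have hs2 : s ^ 2 = t ^ 2 := by rw [hs]; exact sq_abs t
  have hg2 : g ^ 2 = s ^ 2 + u := by rw [hg, hs2]; exact Real.sq_sqrt hg0.le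
  have hf0 := ph_nonneg t ((B - P) / 3) hb
  have hf1 := ph_le t ((B - P) / 3) hb
  have hfe : Real.sqrt ((t ^ 2 + (B - P) / 3) ^ 3) =
      s ^ 3 + 3 / 2 * ((B - P) / 3) * s + ph t ((B - P) / 3) := by
    unfold ph; rw [hs]; ring
  rw [hfe, ← hs]
  obtain ⟨ff, hf⟩ : ∃ ff, ff = ph t ((B - P) / 3) := ⟨_, rfl⟩
  rw [← hf] at hf0 hf1 ⊢
  obtain ⟨i, hi⟩ : ∃ i, i = 1 / g := ⟨_, rfl⟩
  have hgi : g * i = 1 := by rw [hi]; field_simp
  have hi0 : 0 < i := by rw [hi]; positivity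
  have hsg : s / g = s * i := by rw [hi]; ring
  rw [hsg]
  -- the square root
  have h1 : Real.sqrt (t ^ 2 + u + P) ≤ g + 1 / 2 * P * i := by
    refine Real.sqrt_le_iff.2 ⟨by positivity, ?_⟩
    have e : (g + 1 / 2 * P * i) ^ 2 = g ^ 2 + P * (g * i) + (1 / 2 * P * i) ^ 2 := by ring
    rw [e, hgi, hg2, hs2]
    nlinarith [sq_nonneg (1 / 2 * P * i)]
  obtain ⟨Y, hY⟩ : ∃ Y, Y = s ^ 3 + 3 / 2 * ((B - P) / 3) * s + ff + 37 / 200 * s * κ := ⟨_, rfl⟩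
  have hY0 : 0 ≤ Y := by rw [hY]; positivity
  have h2 : Real.sqrt (t ^ 2 + u + P) * Y ≤ (g + 1 / 2 * P * i) * Y :=
    mul_le_mul_of_nonneg_right h1 hY0
  have h3 : (g + 1 / 2 * P * i) * Y = g * s ^ 3 + 1 / 2 * (g * s * B) - 1 / 2 * (s * i * Z2) +
      37 / 200 * (g * s * κ) + g * ff + 1 / 4 * (P * (B - P)) * (s * i) + 1 / 2 * i * (P * ff) +
      37 / 400 * (P * (s * i * κ)) := by
    rw [hY, ← hZ]
    linear_combination (1 / 2 * P * s * g) * hgi - (1 / 2 * P * i * s) * hg2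
  have h4 : 1 / 4 * (P * (B - P)) * (s * i) ≤ 1 / 16 * (s * i) * B ^ 2 := by
    have : P * (B - P) ≤ B ^ 2 / 4 := by nlinarith [sq_nonneg (B - 2 * P)]
    have h5 : 0 ≤ s * i := by positivity
    nlinarith
  have h5 : P * ff ≤ 358 / 10000 * (B ^ 2 * Real.sqrt B) := by
    have h6 := pq_le P (B - P) hP (by linarith)
    rw [show P + (B - P) = B by ring] at h6
    exact (mul_le_mul_of_nonneg_left hf1 hP).trans h6
  have h6 : i * Real.sqrt B ≤ Real.sqrt D * (1 + v ^ 2 / (2 * u)) := by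
    have a1 : Real.sqrt B ≤ Real.sqrt D * Real.sqrt (u + v ^ 2) := by
      rw [← Real.sqrt_mul hD]
      exact Real.sqrt_le_sqrt hBD
    have a2 : Real.sqrt (u + v ^ 2) ≤ g * (1 + v ^ 2 / (2 * u)) := by
      refine Real.sqrt_le_iff.2 ⟨by positivity, ?_⟩
      have e : (g * (1 + v ^ 2 / (2 * u))) ^ 2 = g ^ 2 * (1 + v ^ 2 / (2 * u)) ^ 2 := by ring
      have e2 : u * (1 + v ^ 2 / (2 * u)) ^ 2 = u + v ^ 2 + u * (v ^ 2 / (2 * u)) ^ 2 := by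
        field_simp
        ring
      have e3 : 0 ≤ u * (v ^ 2 / (2 * u)) ^ 2 := by positivity
      have e4 : u * (1 + v ^ 2 / (2 * u)) ^ 2 ≤ g ^ 2 * (1 + v ^ 2 / (2 * u)) ^ 2 := by
        apply mul_le_mul_of_nonneg_right _ (sq_nonneg _)
        rw [hg2]; nlinarith
      rw [e]; linarith
    calc i * Real.sqrt B ≤ i * (Real.sqrt D * (g * (1 + v ^ 2 / (2 * u)))) := by
          apply mul_le_mul_of_nonneg_left _ hi0.le
          exact a1.trans (mul_le_mul_of_nonneg_left a2 (Real.sqrt_nonneg _))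
      _ = (g * i) * (Real.sqrt D * (1 + v ^ 2 / (2 * u))) := by ring
      _ = Real.sqrt D * (1 + v ^ 2 / (2 * u)) := by rw [hgi, one_mul]
  have h7 : 1 / 2 * i * (P * ff) ≤ 179 / 10000 * Real.sqrt D * (1 + v ^ 2 / (2 * u)) * B ^ 2 := by
    have a1 : i * (P * ff) ≤ i * (358 / 10000 * (B ^ 2 * Real.sqrt B)) :=
      mul_le_mul_of_nonneg_left h5 hi0.le
    have a2 : B ^ 2 * (i * Real.sqrt B) ≤ B ^ 2 * (Real.sqrt D * (1 + v ^ 2 / (2 * u))) :=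
      mul_le_mul_of_nonneg_left h6 (sq_nonneg _)
    calc 1 / 2 * i * (P * ff) = 1 / 2 * (i * (P * ff)) := by ring
      _ ≤ 1 / 2 * (i * (358 / 10000 * (B ^ 2 * Real.sqrt B))) := by linarith
      _ = 179 / 10000 * (B ^ 2 * (i * Real.sqrt B)) := by ring
      _ ≤ 179 / 10000 * (B ^ 2 * (Real.sqrt D * (1 + v ^ 2 / (2 * u)))) := by linarith
      _ = 179 / 10000 * Real.sqrt D * (1 + v ^ 2 / (2 * u)) * B ^ 2 := by ring
  have h8 : 37 / 400 * (P * (s * i * κ)) ≤ 37 / 400 * D * (s * i * (u + v ^ 2) * κ) := by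
    have a1 : P ≤ D * (u + v ^ 2) := hPB.trans hBD
    have a2 : 0 ≤ s * i * κ := by positivity
    have a3 := mul_le_mul_of_nonneg_right a1 a2
    calc 37 / 400 * (P * (s * i * κ)) ≤ 37 / 400 * (D * (u + v ^ 2) * (s * i * κ)) := by linarith
      _ = 37 / 400 * D * (s * i * (u + v ^ 2) * κ) := by ring
  rw [← hY, add_mul (1 / 16 * (s * i))]
  linarith

end Pool.Agent.W214.N4
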